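import Mathlib

open Complex

namespace Pool.Agent.Results.MP_54ed65_an.Nonneg

/-- `p_β(z) = ((1+z)/(1-z))^β`, principal power. -/
noncomputable def p (β : ℝ) (z : ℂ) : ℂ := ((1 + z) / (1 - z)) ^ (β : ℂ)

/-- `P_{α,β}(z)`, with `r = ‖z‖`. -/
noncomputable def P (α β : ℝ) (z : ℂ) : ℂ :=
  ((α * ‖z‖ ^ 2 + (1 - α) * (1 - ‖z‖ ^ 2) : ℝ) : ℂ) * p β z
    + (((1 - α) * (1 - ‖z‖ ^ 2) : ℝ) : ℂ) * (z * deriv (p β) z)

theorem result (α β : ℝ) (hα0 : 0 < α) (hα : α < 2 / 3) (hβ : 0 < β)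
    (h : 0 ≤ α - 2 * (1 - α) * β) (z : ℂ) (hz : ‖z‖ < 1) : 0 ≤ (P α β z).re := by
  have h1 : 1 - z ≠ 0 := fun e => by
    have : z = 1 := by linear_combination -e
    rw [this] at hz; simp at hz
  have h2 : 1 + z ≠ 0 := fun e => by
    have : z = -1 := by linear_combination e
    rw [this] at hz; simp at hz
  set r := ‖z‖ with hr
  have hr0 : 0 ≤ r := norm_nonneg _
  set w := (1 + z) / (1 - z) with hw
  have hw0 : w ≠ 0 := div_ne_zero h2 h1
  have n1 : 0 < ‖1 - z‖ := norm_pos_iff.2 h1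
  have n2 : 0 < ‖1 + z‖ := norm_pos_iff.2 h2
  have hr2 : 0 < 1 - r ^ 2 := by nlinarith
  have hre : w.re = (1 - r ^ 2) / ‖1 - z‖ ^ 2 := by
    rw [hw, div_re, hr, Complex.sq_norm, Complex.sq_norm, ← add_div, normSq_apply z]
    congr 1
    simp; ring
  have hre0 : 0 < w.re := by rw [hre]; positivity
  have hd : HasDerivAt (p β) (β * w ^ ((β : ℂ) - 1) * (2 / (1 - z) ^ 2)) z := by
    have h3 : HasDerivAt (fun z : ℂ => (1 + z) / (1 - z)) (2 / (1 - z) ^ 2) z := by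
      have := ((hasDerivAt_id z).const_add 1).div ((hasDerivAt_id z).const_sub 1) h1
      refine this.congr_deriv ?_
      simp only [id]; congr 1; ring
    exact h3.cpow_const (Or.inl hre0)
  have hβ1 : β ≤ 1 := by nlinarith
  have harg : |arg w| < Real.pi / 2 := abs_arg_lt_pi_div_two_iff.2 (Or.inl hre0)
  have hc : (1 - r ^ 2) / (‖1 - z‖ * ‖1 + z‖) ≤ Real.cos (arg w * β) := by
    have e : Real.cos (arg w) = (1 - r ^ 2) / (‖1 - z‖ * ‖1 + z‖) := by
      rw [cos_arg hw0, hre, hw, norm_div]; field_simp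
    rw [← e, ← Real.cos_abs (arg w * β), ← Real.cos_abs (arg w)]
    apply Real.cos_le_cos_of_nonneg_of_le_pi (abs_nonneg _) (by linarith [Real.pi_pos])
    rw [abs_mul, abs_of_pos hβ]
    nlinarith [abs_nonneg (arg w)]
  have hpre : (p β z).re = ‖w‖ ^ β * Real.cos (arg w * β) := cpow_ofReal_re w β
  have hpn : ‖p β z‖ = ‖w‖ ^ β := norm_cpow_real w β
  have hzd : z * deriv (p β) z = p β z * (2 * β * z / ((1 - z) * (1 + z))) := by
    rw [hd.deriv, cpow_sub _ _ hw0, cpow_one]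
    change _ = w ^ (β : ℂ) * _
    generalize w ^ (β : ℂ) = q
    rw [hw]; field_simp
  have hn : ‖z * deriv (p β) z‖ = ‖w‖ ^ β * (2 * β * r / (‖1 - z‖ * ‖1 + z‖)) := by
    rw [hzd, norm_mul, hpn]
    congr 1
    rw [norm_div, norm_mul, norm_mul, norm_mul, Complex.norm_real, Real.norm_of_nonneg hβ.le]
    simp [hr]
  have hlow := (abs_le.1 (abs_re_le_norm (z * deriv (p β) z))).1
  rw [hn] at hlow
  unfold P
  rw [add_re, re_ofReal_mul, re_ofReal_mul, hpre, ← hr]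
  have hW : 0 < ‖w‖ ^ β := Real.rpow_pos_of_pos (norm_pos_iff.2 hw0) _
  set W := ‖w‖ ^ β
  set D := ‖1 - z‖ * ‖1 + z‖
  have hD : 0 < D := mul_pos n1 n2
  have hA : α * r ≤ α * r ^ 2 + (1 - α) * (1 - r ^ 2) := by
    have : 0 ≤ (1 - r) * ((1 - α) * (1 - r) + (2 - 3 * α) * r) :=
      mul_nonneg (by linarith) (add_nonneg (mul_nonneg (by linarith) (by linarith))
        (mul_nonneg (by linarith) hr0))
    nlinarith
  have hA0 : 0 ≤ α * r ^ 2 + (1 - α) * (1 - r ^ 2) := le_trans (by positivity) hA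
  have hB0 : 0 ≤ (1 - α) * (1 - r ^ 2) := mul_nonneg (by linarith) hr2.le
  have a1 := mul_le_mul_of_nonneg_left (mul_le_mul_of_nonneg_left hc hW.le) hA0
  have a2 := mul_le_mul_of_nonneg_left hlow hB0
  have a3 : 0 ≤ W * ((1 - r ^ 2) / D)
      * ((α * r ^ 2 + (1 - α) * (1 - r ^ 2)) - 2 * (1 - α) * β * r) := by
    apply mul_nonneg (by positivity)
    nlinarith [mul_nonneg h hr0]
  have e : (α * r ^ 2 + (1 - α) * (1 - r ^ 2)) * (W * ((1 - r ^ 2) / D))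
      + (1 - α) * (1 - r ^ 2) * -(W * (2 * β * r / D)) = W * ((1 - r ^ 2) / D)
      * ((α * r ^ 2 + (1 - α) * (1 - r ^ 2)) - 2 * (1 - α) * β * r) := by ring
  linarith

end Pool.Agent.Results.MP_54ed65_an.Nonneg
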